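import Pool.Agent.E8helper80.MQ.Sup
import Pool.Agent.H373R2.T7.SupLiou

set_option autoImplicit false

/-! The Liouville function in arithmetic progressions of arbitrary moduli, on intervals of integers. -/

namespace Pool.Agent.E8helper80.BF
open Finset
open Pool.Agent.H807R2.Dav (ee norm_ee ee_add)
open Pool.Agent.H373R2.T7 (orth liR sup_liou)
open Pool.Agent.E8helper80.MQ (lamZ lamZ_neg lamZ_norm lamZ_nat)

/-- residue classes by characters -/
lemma class_le (f : ℕ → ℂ) (D : ℕ) (hD : 1 ≤ D) (e : ℤ) (y : ℕ) (δ : ℝ)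
    (h : ∀ α : ℝ, ‖∑ n ∈ Icc 1 y, f n * ee ((n : ℝ) * α)‖ ≤ δ) :
    ‖∑ n ∈ (Icc 1 y).filter (fun n : ℕ => (n : ℤ) ≡ e [ZMOD D]), f n‖ ≤ δ := by
  have hD0 : (0 : ℝ) < D := by exact_mod_cast hD
  have h1 : ∑ t ∈ range D, ∑ n ∈ Icc 1 y, f n * ee ((n : ℝ) * (t / D)) * ee (-(e : ℝ) * (t / D)) =
      D * ∑ n ∈ (Icc 1 y).filter (fun n : ℕ => (n : ℤ) ≡ e [ZMOD D]), f n := by
    rw [sum_comm, mul_sum, sum_filter]
    apply sum_congr rfl
    intro n _
    have h3 : ∀ t ∈ range D, f n * ee ((n : ℝ) * (t / D)) * ee (-(e : ℝ) * (t / D)) =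
        f n * ee ((t : ℝ) * ((((n : ℤ) - e : ℤ) : ℝ) / D)) := by
      intro t _
      rw [mul_assoc, ← ee_add]
      congr 2
      push_cast
      ring
    rw [sum_congr rfl h3, ← mul_sum, orth D hD]
    have h4 : ((D : ℤ) ∣ (n : ℤ) - e) ↔ ((n : ℤ) ≡ e [ZMOD D]) := by
      rw [Int.modEq_comm, Int.modEq_iff_dvd]
    simp only [h4]
    split_ifs
    · ring
    · ring
  have h4 : ‖∑ t ∈ range D, ∑ n ∈ Icc 1 y, f n * ee ((n : ℝ) * (t / D)) * ee (-(e : ℝ) * (t / D))‖ ≤ D * δ := by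
    refine (norm_sum_le _ _).trans ?_
    have h5 : ∀ t ∈ range D, ‖∑ n ∈ Icc 1 y, f n * ee ((n : ℝ) * (t / D)) * ee (-(e : ℝ) * (t / D))‖ ≤ δ := by
      intro t _
      rw [← sum_mul, norm_mul, norm_ee, mul_one]
      exact h _
    refine (sum_le_sum h5).trans ?_
    rw [sum_const, card_range, nsmul_eq_mul]
  rw [h1, norm_mul, Complex.norm_natCast] at h4
  exact le_of_mul_le_mul_left h4 hD0

/-- prefix sums -/
lemma prefixN (U : ℕ) : ∃ M₀ : ℕ, ∀ M : ℕ, M₀ ≤ M → ∀ D : ℕ, 1 ≤ D → ∀ e : ℤ, ∀ y : ℕ, y ≤ M →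
    ‖∑ n ∈ (Icc 1 y).filter (fun n : ℕ => (n : ℤ) ≡ e [ZMOD D]), liR n‖ ≤ M / Real.log M ^ U := by
  obtain ⟨N₀, h0⟩ := sup_liou (U + 1)
  -- eventually the logarithm is large and small with respect to the square root
  obtain ⟨m₁, h1⟩ : ∃ m₁ : ℕ, ∀ M : ℕ, m₁ ≤ M → (2 : ℝ) ^ (U + 1) ≤ Real.log M :=
    Filter.eventually_atTop.1 ((Real.tendsto_log_atTop.comp tendsto_natCast_atTop_atTop).eventually_ge_atTop _)
  obtain ⟨m₂, h2⟩ : ∃ m₂ : ℕ, ∀ M : ℕ, m₂ ≤ M → Real.log M ^ U ≤ (M : ℝ) ^ (1 / 2 : ℝ) := by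
    have h3 := (isLittleO_log_rpow_rpow_atTop (U : ℝ) (show (0 : ℝ) < 1 / 2 by norm_num)).bound one_pos
    have h4 := tendsto_natCast_atTop_atTop (R := ℝ) |>.eventually h3
    obtain ⟨m, hm⟩ := Filter.eventually_atTop.1 h4
    refine ⟨max m 1, fun M hM => ?_⟩
    have h5 := hm M ((le_max_left _ _).trans hM)
    have h6 : (1 : ℝ) ≤ M := by exact_mod_cast (le_max_right _ _).trans hM
    rw [one_mul, Real.norm_of_nonneg (show (0 : ℝ) ≤ (M : ℝ) ^ (1 / 2 : ℝ) by positivity), Real.rpow_natCast] at h5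
    rwa [Real.norm_of_nonneg (pow_nonneg (Real.log_nonneg h6) _)] at h5
  refine ⟨max (max m₁ m₂) (max (N₀ ^ 2) 3), fun M hM D hD e y hy => ?_⟩
  have hm1 : m₁ ≤ M := (le_max_left _ _).trans ((le_max_left _ _).trans hM)
  have hm2 : m₂ ≤ M := (le_max_right _ _).trans ((le_max_left _ _).trans hM)
  have hm3 : N₀ ^ 2 ≤ M := (le_max_left _ _).trans ((le_max_right _ _).trans hM)
  have hm4 : 3 ≤ M := (le_max_right _ _).trans ((le_max_right _ _).trans hM)
  have hM0 : (0 : ℝ) < M := by exact_mod_cast (by omega : 0 < M)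
  have hlog1 := h1 M hm1
  have hlog0 : 0 < Real.log M := lt_of_lt_of_le (by positivity) hlog1
  rcases le_or_gt ((y : ℝ)) (M / Real.log M ^ U) with hy1 | hy1
  · refine le_trans ?_ hy1
    refine (norm_sum_le _ _).trans ?_
    have h3 : ∀ n ∈ (Icc 1 y).filter (fun n : ℕ => (n : ℤ) ≡ e [ZMOD D]), ‖liR n‖ ≤ 1 := by
      intro n _
      unfold liR
      rw [norm_pow, norm_neg, norm_one, one_pow]
    refine (sum_le_sum h3).trans ?_
    rw [sum_const, nsmul_eq_mul, mul_one]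
    have h4 := card_filter_le (Icc 1 y) (fun n : ℕ => (n : ℤ) ≡ e [ZMOD D])
    rw [Nat.card_Icc, Nat.add_sub_cancel] at h4
    exact_mod_cast h4
  · -- `y` is at least the square root of `M`
    have hsq : (M : ℝ) ^ (1 / 2 : ℝ) ≤ y := by
      have h3 := h2 M hm2
      refine le_trans ?_ hy1.le
      rw [le_div_iff₀ (by positivity)]
      calc (M : ℝ) ^ (1 / 2 : ℝ) * Real.log M ^ U ≤ (M : ℝ) ^ (1 / 2 : ℝ) * (M : ℝ) ^ (1 / 2 : ℝ) :=
            mul_le_mul_of_nonneg_left h3 (by positivity)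
        _ = M := by rw [← Real.rpow_add hM0]; norm_num
    have hyN : N₀ ≤ y := by
      have h3 : (N₀ : ℝ) ≤ (M : ℝ) ^ (1 / 2 : ℝ) := by
        rw [← Real.sqrt_eq_rpow]
        apply Real.le_sqrt_of_sq_le
        exact_mod_cast hm3
      exact_mod_cast h3.trans hsq
    have hylog : Real.log M / 2 ≤ Real.log y := by
      have h3 := Real.log_le_log (by positivity) hsq
      rw [Real.log_rpow hM0] at h3
      linarith
    have hylog0 : 0 < Real.log y := by linarith
    have h5 := class_le liR D hD e y (y / Real.log y ^ (U + 1)) (fun α => h0 y hyN α)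
    refine h5.trans ?_
    have hyM : (y : ℝ) ≤ M := by exact_mod_cast hy
    rw [div_le_div_iff₀ (by positivity) (by positivity)]
    have h6 : Real.log M ^ U ≤ Real.log y ^ (U + 1) := by
      calc Real.log M ^ U = Real.log M ^ U * 1 := (mul_one _).symm
        _ ≤ Real.log M ^ U * (Real.log M / 2 ^ (U + 1)) := by
            apply mul_le_mul_of_nonneg_left _ (by positivity)
            rw [le_div_iff₀ (by positivity), one_mul]
            exact hlog1
        _ = (Real.log M / 2) ^ (U + 1) := by rw [div_pow, pow_succ (Real.log M) U]; ring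
        _ ≤ _ := pow_le_pow_left₀ (by positivity) hylog _
    exact mul_le_mul hyM h6 (by positivity) hM0.le

/-- positive integers in a residue class -/
lemma prefixZ (U : ℕ) : ∃ M₀ : ℕ, ∀ M : ℕ, M₀ ≤ M → ∀ D : ℤ, D ≠ 0 → ∀ e : ℤ, ∀ y : ℤ, y ≤ M →
    ‖∑ n ∈ (Icc 1 y).filter (fun n : ℤ => n ≡ e [ZMOD D]), lamZ n‖ ≤ M / Real.log M ^ U := by
  obtain ⟨M₀, h⟩ := prefixN U
  refine ⟨M₀ + 1, fun M hM D hD e y hy => ?_⟩
  have h1 := h M (by omega) D.natAbs (by omega) e y.toNat (by omega)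
  refine le_trans (le_of_eq ?_) h1
  congr 1
  symm
  apply sum_nbij' (fun n : ℕ => (n : ℤ)) (fun n : ℤ => n.toNat)
  · intro n hn
    rw [mem_filter, mem_Icc] at hn ⊢
    refine ⟨by omega, ?_⟩
    have h2 := hn.2
    rw [Int.modEq_iff_dvd] at h2 ⊢
    rwa [Int.natAbs_dvd] at h2
  · intro n hn
    rw [mem_filter, mem_Icc] at hn ⊢
    refine ⟨by omega, ?_⟩
    have h2 := hn.2
    rw [Int.toNat_of_nonneg (by omega)]
    rw [Int.modEq_iff_dvd] at h2 ⊢
    rwa [Int.natAbs_dvd]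
  · intro n _
    exact Int.toNat_natCast n
  · intro n hn
    rw [mem_filter, mem_Icc] at hn
    exact Int.toNat_of_nonneg (by omega)
  · intro n hn
    rw [mem_filter, mem_Icc] at hn
    rw [lamZ_nat n (by omega)]
    rfl

/-- an interval of positive integers -/
lemma posPart (lo hi : ℤ) (h : lo ≤ hi + 1) (D e : ℤ) :
    ∑ n ∈ (Icc lo hi).filter (fun n : ℤ => 1 ≤ n ∧ n ≡ e [ZMOD D]), lamZ n =
      ∑ n ∈ (Icc 1 hi).filter (fun n : ℤ => n ≡ e [ZMOD D]), lamZ n -
        ∑ n ∈ (Icc 1 (lo - 1)).filter (fun n : ℤ => n ≡ e [ZMOD D]), lamZ n := by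
  rw [eq_sub_iff_add_eq, ← sum_union]
  · apply sum_congr _ (fun _ _ => rfl)
    ext n
    simp only [mem_union, mem_filter, mem_Icc]
    constructor
    · rintro (⟨h1, h2, h3⟩ | ⟨h1, h2⟩)
      · exact ⟨⟨h2, h1.2⟩, h3⟩
      · exact ⟨⟨h1.1, by omega⟩, h2⟩
    · rintro ⟨h1, h2⟩
      by_cases h3 : lo ≤ n
      · exact Or.inl ⟨⟨h3, h1.2⟩, h1.1, h2⟩
      · exact Or.inr ⟨⟨h1.1, by omega⟩, h2⟩
  · rw [disjoint_left]
    intro n hn hn'
    rw [mem_filter, mem_Icc] at hn hn'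
    omega

/-- an interval of integers in a residue class -/
lemma intervalZ (U : ℕ) : ∃ M₀ : ℕ, ∀ M : ℕ, M₀ ≤ M → ∀ D : ℤ, D ≠ 0 → ∀ e lo hi : ℤ, -M ≤ lo → hi ≤ M →
    ‖∑ n ∈ (Icc lo hi).filter (fun n : ℤ => n ≡ e [ZMOD D]), lamZ n‖ ≤ 4 * (M / Real.log M ^ U) := by
  obtain ⟨M₀, h⟩ := prefixZ U
  refine ⟨M₀, fun M hM D hD e lo hi hlo hhi => ?_⟩
  have hnn : 0 ≤ (M : ℝ) / Real.log M ^ U := by
    have := h M hM D hD e 0 (by omega)
    exact (norm_nonneg _).trans this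
  rcases lt_or_ge hi lo with h0 | h0
  · rw [Icc_eq_empty (by omega), filter_empty, sum_empty, norm_zero]
    positivity
  have hsplit : ∑ n ∈ (Icc lo hi).filter (fun n : ℤ => n ≡ e [ZMOD D]), lamZ n =
      ∑ n ∈ (Icc lo hi).filter (fun n : ℤ => 1 ≤ n ∧ n ≡ e [ZMOD D]), lamZ n +
      ∑ n ∈ (Icc (-hi) (-lo)).filter (fun n : ℤ => 1 ≤ n ∧ n ≡ -e [ZMOD D]), lamZ n := by
    have h1 : ∑ n ∈ (Icc (-hi) (-lo)).filter (fun n : ℤ => 1 ≤ n ∧ n ≡ -e [ZMOD D]), lamZ n =
        ∑ n ∈ (Icc lo hi).filter (fun n : ℤ => n ≤ -1 ∧ n ≡ e [ZMOD D]), lamZ n := by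
      apply sum_nbij' (fun n => -n) (fun n => -n)
      · intro n hn
        rw [mem_filter, mem_Icc] at hn ⊢
        refine ⟨by omega, by omega, ?_⟩
        have := Int.ModEq.neg hn.2.2
        rwa [neg_neg] at this
      · intro n hn
        rw [mem_filter, mem_Icc] at hn ⊢
        exact ⟨by omega, by omega, Int.ModEq.neg hn.2.2⟩
      · intro n _; ring
      · intro n _; ring
      · intro n _
        exact (lamZ_neg n).symm
    rw [h1, ← sum_union]
    · symm
      apply sum_subset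
      · intro n hn
        rw [mem_union, mem_filter, mem_filter] at hn
        rw [mem_filter]
        rcases hn with hn | hn
        · exact ⟨hn.1, hn.2.2⟩
        · exact ⟨hn.1, hn.2.2⟩
      · intro n hn hn'
        have h2 : n = 0 := by
          by_contra h3
          apply hn'
          rw [mem_union, mem_filter, mem_filter]
          rw [mem_filter] at hn
          rcases lt_or_gt_of_ne h3 with h4 | h4
          · exact Or.inr ⟨hn.1, by omega, hn.2⟩
          · exact Or.inl ⟨hn.1, by omega, hn.2⟩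
        rw [h2]
        unfold lamZ
        rw [if_pos rfl]
    · rw [disjoint_left]
      intro n hn hn'
      rw [mem_filter] at hn hn'
      omega
  rw [hsplit, posPart lo hi (by omega) D e, posPart (-hi) (-lo) (by omega) D (-e)]
  have g1 := h M hM D hD e hi (by omega)
  have g2 := h M hM D hD e (lo - 1) (by omega)
  have g3 := h M hM D hD (-e) (-lo) (by omega)
  have g4 := h M hM D hD (-e) (-hi - 1) (by omega)
  refine (norm_add_le _ _).trans ?_
  have g5 := norm_sub_le (∑ n ∈ (Icc 1 hi).filter (fun n : ℤ => n ≡ e [ZMOD D]), lamZ n)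
    (∑ n ∈ (Icc 1 (lo - 1)).filter (fun n : ℤ => n ≡ e [ZMOD D]), lamZ n)
  have g6 := norm_sub_le (∑ n ∈ (Icc 1 (-lo)).filter (fun n : ℤ => n ≡ -e [ZMOD D]), lamZ n)
    (∑ n ∈ (Icc 1 (-hi - 1)).filter (fun n : ℤ => n ≡ -e [ZMOD D]), lamZ n)
  linarith

/-- values of a linear polynomial on an interval -/
lemma line (U : ℕ) : ∃ M₀ : ℕ, ∀ M : ℕ, M₀ ≤ M → ∀ D : ℤ, D ≠ 0 → ∀ e k₁ k₂ : ℤ, k₁ ≤ k₂ →
    |e - D * k₁| ≤ M → |e - D * k₂| ≤ M →
    ‖∑ k ∈ Icc k₁ k₂, lamZ (e - D * k)‖ ≤ 4 * (M / Real.log M ^ U) := by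
  obtain ⟨M₀, h⟩ := intervalZ U
  refine ⟨M₀, fun M hM D hD e k₁ k₂ hk h1 h2 => ?_⟩
  rw [abs_le] at h1 h2
  rcases lt_or_gt_of_ne hD with hD' | hD'
  · have h3 := h M hM D hD e (e - D * k₁) (e - D * k₂) (by omega) (by omega)
    refine le_trans (le_of_eq ?_) h3
    congr 1
    apply sum_nbij' (fun k => e - D * k) (fun n => (e - n) / D)
    · intro k hk'
      rw [mem_Icc] at hk'
      rw [mem_filter, mem_Icc]
      refine ⟨⟨?_, ?_⟩, ?_⟩
      · nlinarith
      · nlinarith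
      · rw [Int.modEq_iff_dvd]
        exact ⟨k, by ring⟩
    · intro n hn
      rw [mem_filter, mem_Icc] at hn
      obtain ⟨⟨h4, h5⟩, h6⟩ := hn
      rw [Int.modEq_iff_dvd] at h6
      obtain ⟨j, hj⟩ := h6
      rw [hj, Int.mul_ediv_cancel_left _ hD, mem_Icc]
      constructor
      · by_contra hcon
        push Not at hcon
        nlinarith
      · by_contra hcon
        push Not at hcon
        nlinarith
    · intro k _
      have : e - (e - D * k) = D * k := by ring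
      rw [this, Int.mul_ediv_cancel_left _ hD]
    · intro n hn
      rw [mem_filter] at hn
      have h6 := hn.2
      rw [Int.modEq_iff_dvd] at h6
      rw [Int.mul_ediv_cancel' h6]
      ring
    · intro k _
      rfl
  · have h3 := h M hM D hD e (e - D * k₂) (e - D * k₁) (by omega) (by omega)
    refine le_trans (le_of_eq ?_) h3
    congr 1
    apply sum_nbij' (fun k => e - D * k) (fun n => (e - n) / D)
    · intro k hk'
      rw [mem_Icc] at hk'
      rw [mem_filter, mem_Icc]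
      refine ⟨⟨?_, ?_⟩, ?_⟩
      · nlinarith
      · nlinarith
      · rw [Int.modEq_iff_dvd]
        exact ⟨k, by ring⟩
    · intro n hn
      rw [mem_filter, mem_Icc] at hn
      obtain ⟨⟨h4, h5⟩, h6⟩ := hn
      rw [Int.modEq_iff_dvd] at h6
      obtain ⟨j, hj⟩ := h6
      rw [hj, Int.mul_ediv_cancel_left _ hD, mem_Icc]
      constructor
      · by_contra hcon
        push Not at hcon
        nlinarith
      · by_contra hcon
        push Not at hcon
        nlinarith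
    · intro k _
      have : e - (e - D * k) = D * k := by ring
      rw [this, Int.mul_ediv_cancel_left _ hD]
    · intro n hn
      rw [mem_filter] at hn
      have h6 := hn.2
      rw [Int.modEq_iff_dvd] at h6
      rw [Int.mul_ediv_cancel' h6]
      ring
    · intro k _
      rfl

end Pool.Agent.E8helper80.BF
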