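import Pool.Agent.E8helper80.BF.Gram

set_option autoImplicit false

/-! Bessel's inequality and the number of exceptional linear forms. -/

namespace Pool.Agent.E8helper80.BF
open Finset
open Pool.Agent.E8helper80.MQ (lamZ lamZ_neg lamZ_norm lamZ_nat lamZ_mul)

/-- the number of functions of a nearly orthogonal family which correlate with a given one -/
lemma bessel {ι κ : Type*} [DecidableEq ι] (S : Finset ι) (Bx : Finset κ) (w : κ → ℝ) (φ : ι → κ → ℝ)
    (hw : ∀ P, |w P| ≤ 1) (hφ : ∀ i P, |φ i P| ≤ 1) (γ T : ℝ) (hγ : 0 ≤ γ) (hT : 0 ≤ T)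
    (hG : ∀ i ∈ S, ∀ j ∈ S, i ≠ j → |∑ P ∈ Bx, φ i P * φ j P| ≤ γ)
    (h : ∀ i ∈ S, T ≤ |∑ P ∈ Bx, w P * φ i P|) :
    (S.card : ℝ) * T ^ 2 ≤ (Bx.card : ℝ) ^ 2 + Bx.card * (S.card * γ) := by
  rcases Nat.eq_zero_or_pos S.card with h0 | h0
  · rw [h0]
    push_cast
    have : (0 : ℝ) ≤ (Bx.card : ℝ) ^ 2 := by positivity
    linarith
  have hS0 : (0 : ℝ) < S.card := by exact_mod_cast h0
  obtain ⟨s, hs⟩ : ∃ s : ι → ℝ, s = fun i => if 0 ≤ ∑ P ∈ Bx, w P * φ i P then 1 else -1 := ⟨_, rfl⟩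
  have hs1 : ∀ i, |s i| = 1 := by
    intro i
    rw [hs]
    dsimp only
    split_ifs
    · exact abs_one
    · rw [abs_neg, abs_one]
  have hs2 : ∀ i, s i * ∑ P ∈ Bx, w P * φ i P = |∑ P ∈ Bx, w P * φ i P| := by
    intro i
    rw [hs]
    dsimp only
    split_ifs with h1
    · rw [one_mul, abs_of_nonneg h1]
    · rw [neg_one_mul, abs_of_neg (by linarith)]
  have h1 : (S.card : ℝ) * T ≤ ∑ P ∈ Bx, w P * ∑ i ∈ S, s i * φ i P := by
    have h2 : ∑ P ∈ Bx, w P * ∑ i ∈ S, s i * φ i P = ∑ i ∈ S, |∑ P ∈ Bx, w P * φ i P| := by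
      simp only [← hs2, mul_sum]
      rw [sum_comm]
      apply sum_congr rfl
      intro i _
      apply sum_congr rfl
      intro P _
      ring
    rw [h2]
    calc (S.card : ℝ) * T = ∑ _i ∈ S, T := by rw [sum_const, nsmul_eq_mul]
      _ ≤ _ := sum_le_sum h
  have h3 : (∑ P ∈ Bx, w P * ∑ i ∈ S, s i * φ i P) ^ 2 ≤
      (∑ P ∈ Bx, w P ^ 2) * ∑ P ∈ Bx, (∑ i ∈ S, s i * φ i P) ^ 2 := sum_mul_sq_le_sq_mul_sq _ _ _
  have h4 : ∑ P ∈ Bx, w P ^ 2 ≤ Bx.card := by
    have h5 : ∀ P ∈ Bx, w P ^ 2 ≤ 1 := by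
      intro P _
      rw [← sq_abs]
      exact pow_le_one₀ (abs_nonneg _) (hw P)
    refine (sum_le_sum h5).trans ?_
    rw [sum_const, nsmul_eq_mul, mul_one]
  have h6 : ∑ P ∈ Bx, (∑ i ∈ S, s i * φ i P) ^ 2 ≤ S.card * Bx.card + S.card * (S.card * γ) := by
    have h7 : ∑ P ∈ Bx, (∑ i ∈ S, s i * φ i P) ^ 2 =
        ∑ i ∈ S, ∑ j ∈ S, s i * s j * ∑ P ∈ Bx, φ i P * φ j P := by
      have e : ∀ P, (∑ i ∈ S, s i * φ i P) ^ 2 = ∑ i ∈ S, ∑ j ∈ S, s i * s j * (φ i P * φ j P) := by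
        intro P
        rw [pow_two, sum_mul_sum]
        apply sum_congr rfl
        intro i _
        apply sum_congr rfl
        intro j _
        ring
      simp only [e, mul_sum]
      rw [sum_comm]
      apply sum_congr rfl
      intro i _
      rw [sum_comm]
    rw [h7]
    have h8 : ∀ i ∈ S, ∑ j ∈ S, s i * s j * ∑ P ∈ Bx, φ i P * φ j P ≤ Bx.card + S.card * γ := by
      intro i hi
      rw [← add_sum_erase S _ hi]
      apply add_le_add
      · have h9 : s i * s i = 1 := by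
          have := hs1 i
          rw [← abs_mul_abs_self, this, one_mul]
        rw [h9, one_mul]
        have h10 : ∀ P ∈ Bx, φ i P * φ i P ≤ 1 := by
          intro P _
          rw [← abs_mul_abs_self]
          exact mul_le_one₀ (hφ i P) (abs_nonneg _) (hφ i P)
        refine (sum_le_sum h10).trans ?_
        rw [sum_const, nsmul_eq_mul, mul_one]
      · have h11 : ∀ j ∈ S.erase i, s i * s j * ∑ P ∈ Bx, φ i P * φ j P ≤ γ := by
          intro j hj
          rw [mem_erase] at hj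
          refine (le_abs_self _).trans ?_
          rw [abs_mul, abs_mul, hs1, hs1, one_mul, one_mul]
          exact hG i hi j hj.2 (Ne.symm hj.1)
        refine (sum_le_sum h11).trans ?_
        rw [sum_const, nsmul_eq_mul]
        apply mul_le_mul_of_nonneg_right _ hγ
        exact_mod_cast card_erase_le
    refine (sum_le_sum h8).trans (le_of_eq ?_)
    rw [sum_const, nsmul_eq_mul]
    ring
  have h7 : ((S.card : ℝ) * T) ^ 2 ≤ Bx.card * (S.card * Bx.card + S.card * (S.card * γ)) := by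
    refine (pow_le_pow_left₀ (by positivity) h1 2).trans (h3.trans ?_)
    exact mul_le_mul h4 h6 (sum_nonneg fun _ _ => sq_nonneg _) (by positivity)
  have h8 : (S.card : ℝ) * (S.card * T ^ 2) ≤ S.card * ((Bx.card : ℝ) ^ 2 + Bx.card * (S.card * γ)) := by
    calc (S.card : ℝ) * (S.card * T ^ 2) = ((S.card : ℝ) * T) ^ 2 := by ring
      _ ≤ _ := h7
      _ = _ := by ring
  exact le_of_mul_le_mul_left h8 hS0

/-- the integer-valued Liouville function -/
def lam (m : ℤ) : ℤ := if m = 0 then 0 else (-1) ^ ArithmeticFunction.cardFactors m.natAbs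

lemma lam_cast (m : ℤ) : ((lam m : ℤ) : ℂ) = lamZ m := by
  unfold lam lamZ
  split_ifs <;> simp

lemma lam_mul (m n : ℤ) : lam (m * n) = lam m * lam n := by
  have h := lamZ_mul m n
  rw [← lam_cast, ← lam_cast, ← lam_cast] at h
  exact_mod_cast h

lemma lam_abs (m : ℤ) : |((lam m : ℤ) : ℝ)| ≤ 1 := by
  have h := lamZ_norm m
  rw [← lam_cast, Complex.norm_intCast] at h
  exact h

open Classical in
/-- **the number of exceptional linear forms** -/
theorem few (A B : ℕ) : ∃ X₀ : ℕ, ∀ X : ℕ, X₀ ≤ X → 1 ≤ Real.log X ∧ ∀ g : ℤ × ℤ → ℤ, ∀ 𝓛 : Finset (ℤ × ℤ),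
    (∀ L ∈ 𝓛, (|L.1| : ℝ) ≤ Real.log X ^ A ∧ (|L.2| : ℝ) ≤ Real.log X ^ A) →
    (∀ L ∈ 𝓛, ∀ L' ∈ 𝓛, L ≠ L' → L.1 * L'.2 ≠ L'.1 * L.2) →
    ∀ R ⊆ box X, ∀ ε : ℝ, 0 < ε →
      ((𝓛.filter (fun L => ε * (2 * X + 1) ^ 2 < |((∑ P ∈ R, lam (g P * ev L P) : ℤ) : ℝ)|)).card : ℝ) * ε ^ 2 ≤
        1 + 1 / Real.log X ^ B := by
  obtain ⟨X₀, h0⟩ := gram A (2 * A + B + 1)
  obtain ⟨m₁, h1⟩ : ∃ m₁ : ℕ, ∀ M : ℕ, m₁ ≤ M → (9 : ℝ) ≤ Real.log M :=
    Filter.eventually_atTop.1 ((Real.tendsto_log_atTop.comp tendsto_natCast_atTop_atTop).eventually_ge_atTop _)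
  refine ⟨X₀ + m₁ + 3, fun X hX => ⟨by linarith [h1 X (by omega)], fun g 𝓛 h𝓛 hind R hR ε hε => ?_⟩⟩
  have hlog := h1 X (by omega)
  have hlog1 : 1 ≤ Real.log X := by linarith
  obtain ⟨S, hS⟩ : ∃ S, S = 𝓛.filter (fun L => ε * (2 * X + 1) ^ 2 < |((∑ P ∈ R, lam (g P * ev L P) : ℤ) : ℝ)|) := ⟨_, rfl⟩
  rw [← hS]
  have hX0 : (0 : ℝ) < X := by exact_mod_cast (by omega : 0 < X)
  obtain ⟨n, hn⟩ : ∃ n : ℝ, n = (2 * (X : ℝ) + 1) ^ 2 := ⟨_, rfl⟩
  have hn0 : 0 < n := by rw [hn]; positivity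
  have hcard : ((box X).card : ℝ) = n := by rw [card_box, hn]; push_cast; ring
  obtain ⟨γ, hγ⟩ : ∃ γ : ℝ, γ = (X : ℝ) ^ 2 / Real.log X ^ (2 * A + B + 1) := ⟨_, rfl⟩
  have hγ0 : 0 ≤ γ := by rw [hγ]; positivity
  have key := bessel S (box X) (fun P => if P ∈ R then ((lam (g P) : ℤ) : ℝ) else 0) (fun L P => ((lam (ev L P) : ℤ) : ℝ))
    (fun P => by
      split_ifs
      · exact lam_abs _
      · simp) (fun L P => lam_abs _) γ (ε * n) hγ0 (by positivity) (by
      intro L hL L' hL' hne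
      rw [hS, mem_filter] at hL hL'
      have h2 := h0 X (by omega) L L' (h𝓛 L hL.1).1 (h𝓛 L hL.1).2 (h𝓛 L' hL'.1).1 (h𝓛 L' hL'.1).2
        (sub_ne_zero.2 (hind L hL.1 L' hL'.1 hne))
      rw [← hγ] at h2
      refine le_trans (le_of_eq ?_) h2
      have h3 : ∑ P ∈ box X, lamZ (ev L P) * lamZ (ev L' P) =
          (((∑ P ∈ box X, lam (ev L P) * lam (ev L' P) : ℤ)) : ℂ) := by
        push_cast
        simp only [lam_cast]
      rw [h3, Complex.norm_intCast]
      push_cast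
      rfl) (by
      intro L hL
      rw [hS, mem_filter] at hL
      rw [hn]
      refine hL.2.le.trans (le_of_eq ?_)
      congr 1
      push_cast
      simp only [lam_mul]
      push_cast
      simp only [ite_mul, zero_mul]
      rw [← sum_filter]
      congr 1
      ext P
      rw [mem_filter]
      exact ⟨fun h => ⟨hR h, h⟩, fun h => h.2⟩)
  rw [hcard] at key
  -- the number of forms
  have hSc : (S.card : ℝ) ≤ 9 * Real.log X ^ (2 * A) := by
    have h2 : S ⊆ box ⌊Real.log X ^ A⌋₊ := by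
      intro L hL
      rw [hS, mem_filter] at hL
      have h3 := h𝓛 L hL.1
      rw [mem_box]
      have hc : ∀ x : ℤ, (|x| : ℝ) ≤ Real.log X ^ A → |x| ≤ ((⌊Real.log X ^ A⌋₊ : ℕ) : ℤ) := by
        intro x hx
        have h2 : ((x.natAbs : ℕ) : ℝ) ≤ Real.log X ^ A := by
          rw [Nat.cast_natAbs]
          push_cast
          exact hx
        have h3 := Nat.le_floor h2
        rw [Int.abs_eq_natAbs]
        exact_mod_cast h3
      exact ⟨hc _ h3.1, hc _ h3.2⟩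
    have h3 := card_le_card h2
    rw [card_box] at h3
    have h4 : ((⌊Real.log X ^ A⌋₊ : ℕ) : ℝ) ≤ Real.log X ^ A := Nat.floor_le (by positivity)
    have h5 : 1 ≤ Real.log X ^ A := one_le_pow₀ hlog1
    calc (S.card : ℝ) ≤ ((2 * ⌊Real.log X ^ A⌋₊ + 1) ^ 2 : ℕ) := by exact_mod_cast h3
      _ = (2 * ((⌊Real.log X ^ A⌋₊ : ℕ) : ℝ) + 1) ^ 2 := by push_cast; ring
      _ ≤ (3 * Real.log X ^ A) ^ 2 := by
          apply pow_le_pow_left₀ (by positivity)
          linarith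
      _ = _ := by ring
  have hγn : (S.card : ℝ) * γ ≤ n / Real.log X ^ B := by
    have h2 : (X : ℝ) ^ 2 ≤ n := by
      rw [hn]
      apply pow_le_pow_left₀ hX0.le
      linarith
    calc (S.card : ℝ) * γ ≤ (9 * Real.log X ^ (2 * A)) * γ := mul_le_mul_of_nonneg_right hSc hγ0
      _ = 9 * (X : ℝ) ^ 2 * Real.log X ^ (2 * A) / Real.log X ^ (2 * A + B + 1) := by rw [hγ]; ring
      _ ≤ (X : ℝ) ^ 2 / Real.log X ^ B := by
          rw [div_le_div_iff₀ (by positivity) (by positivity)]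
          have h4 : Real.log X ^ (2 * A + B + 1) = Real.log X ^ (2 * A) * Real.log X ^ B * Real.log X := by ring
          rw [h4]
          have h5 : 0 ≤ (X : ℝ) ^ 2 * Real.log X ^ (2 * A) * Real.log X ^ B := by positivity
          nlinarith
      _ ≤ _ := div_le_div_of_nonneg_right h2 (by positivity)
  have h5 : n ^ 2 * ((S.card : ℝ) * ε ^ 2) ≤ n ^ 2 * (1 + 1 / Real.log X ^ B) := by
    calc n ^ 2 * ((S.card : ℝ) * ε ^ 2) = S.card * (ε * n) ^ 2 := by ring
      _ ≤ n ^ 2 + n * (S.card * γ) := key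
      _ ≤ n ^ 2 + n * (n / Real.log X ^ B) := by
          have := mul_le_mul_of_nonneg_left hγn hn0.le
          linarith
      _ = _ := by ring
  exact le_of_mul_le_mul_left h5 (by positivity)

/-- the points of the translated lattice in the square -/
noncomputable def prog (Y N : ℕ) (r s : ℤ) : Finset (ℤ × ℤ) :=
  (box Y).filter (fun P => P.1 ≡ r [ZMOD N] ∧ P.2 ≡ s [ZMOD N])

lemma box_mono {Y X : ℕ} (h : Y ≤ X) : box Y ⊆ box X := by
  intro P hP
  rw [mem_box] at hP ⊢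
  have : (Y : ℤ) ≤ X := by exact_mod_cast h
  exact ⟨hP.1.trans this, hP.2.trans this⟩

lemma prog_sub {Y X N : ℕ} {r s : ℤ} (h : Y ≤ X) : prog Y N r s ⊆ box X :=
  (filter_subset _ _).trans (box_mono h)

open Classical in
/-- **uniform version** -/
theorem unif (A B κ : ℕ) : ∃ X₀ : ℕ, ∀ X : ℕ, X₀ ≤ X → ∀ g : ℤ × ℤ → ℤ, ∀ 𝓛 : Finset (ℤ × ℤ),
    (∀ L ∈ 𝓛, (|L.1| : ℝ) ≤ Real.log X ^ A ∧ (|L.2| : ℝ) ≤ Real.log X ^ A) →
    (∀ L ∈ 𝓛, ∀ L' ∈ 𝓛, L ≠ L' → L.1 * L'.2 ≠ L'.1 * L.2) →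
    ((𝓛.filter (fun L => ∃ N : ℕ, (1 ≤ N ∧ (N : ℝ) ≤ Real.log X ^ κ) ∧ ∃ (r s : ℤ) (Y : ℕ), Y ≤ X ∧
      (X : ℝ) ^ 2 / Real.log X ^ B < |((∑ P ∈ prog Y N r s, lam (g P * ev L P) : ℤ) : ℝ)|)).card : ℝ) ≤
      Real.log X ^ (3 * κ + 3 * B + 1) := by
  obtain ⟨X₁, h1⟩ := few A B
  obtain ⟨m₁, h2⟩ : ∃ m₁ : ℕ, ∀ M : ℕ, m₁ ≤ M → (40000 : ℝ) ≤ Real.log M :=
    Filter.eventually_atTop.1 ((Real.tendsto_log_atTop.comp tendsto_natCast_atTop_atTop).eventually_ge_atTop _)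
  obtain ⟨m₂, h3⟩ : ∃ m₂ : ℕ, ∀ M : ℕ, m₂ ≤ M → 65 * Real.log M ^ B ≤ (M : ℝ) := by
    have h3 := (Real.isLittleO_pow_log_id_atTop (n := B)).bound (show (0 : ℝ) < 1 / 65 by norm_num)
    have h4 := tendsto_natCast_atTop_atTop (R := ℝ) |>.eventually h3
    obtain ⟨m, hm⟩ := Filter.eventually_atTop.1 h4
    refine ⟨max m 1, fun M hM => ?_⟩
    have h5 := hm M ((le_max_left _ _).trans hM)
    have h6 : (1 : ℝ) ≤ M := by exact_mod_cast (le_max_right _ _).trans hM
    rw [Real.norm_of_nonneg (pow_nonneg (Real.log_nonneg h6) _), id, Real.norm_of_nonneg (by positivity)] at h5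
    linarith
  refine ⟨X₁ + m₁ + m₂ + 3, fun X hX g 𝓛 h𝓛 hind => ?_⟩
  have hlog := h2 X (by omega)
  have hlog1 : 1 ≤ Real.log X := by linarith
  have hlog0 : 0 < Real.log X := by linarith
  have hX0 : (0 : ℝ) < X := by exact_mod_cast (by omega : 0 < X)
  have hX1 : (1 : ℝ) ≤ X := by exact_mod_cast (by omega : 1 ≤ X)
  have hB0 : 0 < Real.log X ^ B := by positivity
  have hB1 : 1 ≤ Real.log X ^ B := one_le_pow₀ hlog1
  obtain ⟨J, hJ⟩ : ∃ J : ℕ, J = ⌈64 * Real.log X ^ B⌉₊ := ⟨_, rfl⟩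
  have hJ1 : 64 * Real.log X ^ B ≤ J := by rw [hJ]; exact Nat.le_ceil _
  have hJ2 : (J : ℝ) ≤ 65 * Real.log X ^ B := by
    rw [hJ]
    have := (Nat.ceil_lt_add_one (show 0 ≤ 64 * Real.log X ^ B by positivity)).le
    linarith
  have hJpos : (0 : ℝ) < J := by linarith
  have hJn : 1 ≤ J := by exact_mod_cast hJpos
  have hJX : J ≤ X := by exact_mod_cast hJ2.trans (h3 X (by omega))
  obtain ⟨Z, hZ⟩ : ∃ Z : ℕ, Z = X / J := ⟨_, rfl⟩
  have hZ1 : 1 ≤ Z := by rw [hZ]; exact Nat.div_pos hJX (by omega)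
  have hZr : (Z : ℝ) * (64 * Real.log X ^ B) ≤ X := by
    have h4 : (Z : ℝ) ≤ X / J := by rw [hZ]; exact Nat.cast_div_le
    rw [le_div_iff₀ hJpos] at h4
    exact (mul_le_mul_of_nonneg_left hJ1 (by positivity)).trans h4
  obtain ⟨K, hK⟩ : ∃ K : ℕ, K = ⌊Real.log X ^ κ⌋₊ := ⟨_, rfl⟩
  have hKr : (K : ℝ) ≤ Real.log X ^ κ := by rw [hK]; exact Nat.floor_le (by positivity)
  obtain ⟨ε, hε⟩ : ∃ ε : ℝ, ε = 1 / (12 * Real.log X ^ B) := ⟨_, rfl⟩
  have hε0 : 0 < ε := by rw [hε]; positivity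
  -- the parameters
  obtain ⟨E, hE⟩ : ∃ E : Finset (ℕ × ℕ × ℕ × ℕ), E = Icc 1 K ×ˢ range K ×ˢ range K ×ˢ range (2 * J + 1) := ⟨_, rfl⟩
  have hbad : ∀ e ∈ E, ((𝓛.filter (fun L => ε * (2 * X + 1) ^ 2 <
      |((∑ P ∈ prog (min (e.2.2.2 * Z) X) e.1 (e.2.1 : ℤ) (e.2.2.1 : ℤ), lam (g P * ev L P) : ℤ) : ℝ)|)).card : ℝ) ≤
        288 * Real.log X ^ (2 * B) := by
    intro e _
    have h4 := (h1 X (by omega)).2 g 𝓛 h𝓛 hind (prog (min (e.2.2.2 * Z) X) e.1 (e.2.1 : ℤ) (e.2.2.1 : ℤ))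
      (prog_sub (min_le_right _ _)) ε hε0
    have h5 : 1 + 1 / Real.log X ^ B ≤ 2 := by
      have : 1 / Real.log X ^ B ≤ 1 := by rw [div_le_one hB0]; exact hB1
      linarith
    have h6 := h4.trans h5
    rw [← le_div_iff₀ (by positivity)] at h6
    refine h6.trans (le_of_eq ?_)
    rw [hε]
    field_simp
    ring
  have hsub : 𝓛.filter (fun L => ∃ N : ℕ, (1 ≤ N ∧ (N : ℝ) ≤ Real.log X ^ κ) ∧ ∃ (r s : ℤ) (Y : ℕ), Y ≤ X ∧
      (X : ℝ) ^ 2 / Real.log X ^ B < |((∑ P ∈ prog Y N r s, lam (g P * ev L P) : ℤ) : ℝ)|) ⊆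
      E.biUnion (fun e => 𝓛.filter (fun L => ε * (2 * X + 1) ^ 2 <
      |((∑ P ∈ prog (min (e.2.2.2 * Z) X) e.1 (e.2.1 : ℤ) (e.2.2.1 : ℤ), lam (g P * ev L P) : ℤ) : ℝ)|)) := by
    intro L hL
    rw [mem_filter] at hL
    obtain ⟨hL1, N, ⟨hN1, hN2⟩, r, s, Y, hY, hlt⟩ := hL
    have hNK : N ≤ K := by rw [hK]; exact Nat.le_floor hN2
    have hr0 : 0 ≤ r % (N : ℤ) := Int.emod_nonneg _ (by omega)
    have hr1 : r % (N : ℤ) < N := Int.emod_lt_of_pos _ (by omega)
    have hs0 : 0 ≤ s % (N : ℤ) := Int.emod_nonneg _ (by omega)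
    have hs1 : s % (N : ℤ) < N := Int.emod_lt_of_pos _ (by omega)
    rw [mem_biUnion]
    refine ⟨(N, (r % (N : ℤ)).toNat, (s % (N : ℤ)).toNat, Y / Z), ?_, ?_⟩
    · rw [hE, mem_product, mem_product, mem_product, mem_Icc, mem_range, mem_range, mem_range]
      refine ⟨⟨hN1, hNK⟩, ?_, ?_, ?_⟩
      · show (r % (N : ℤ)).toNat < K
        omega
      · show (s % (N : ℤ)).toNat < K
        omega
      · show Y / Z < 2 * J + 1
        have h4 : Y / Z ≤ X / Z := Nat.div_le_div_right hY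
        have h5 : X / Z < 2 * J + 1 := by
          rw [Nat.div_lt_iff_lt_mul (by omega)]
          have h6 : X < J * (Z + 1) := by
            rw [hZ]
            exact Nat.lt_mul_div_succ X (show 0 < J by omega)
          nlinarith
        omega
    · rw [mem_filter]
      refine ⟨hL1, ?_⟩
      dsimp only
      rw [Int.toNat_of_nonneg hr0, Int.toNat_of_nonneg hs0]
      obtain ⟨Y', hY'⟩ : ∃ Y', Y' = Y / Z * Z := ⟨_, rfl⟩
      have h4 : Y' ≤ Y := by rw [hY']; exact Nat.div_mul_le_self Y Z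
      have h5 : Y < Y' + Z := by
        rw [hY']
        exact Nat.lt_div_mul_add (a := Y) (show 0 < Z by omega)
      rw [← hY', min_eq_left (h4.trans hY)]
      have h6 : prog Y' N (r % (N : ℤ)) (s % (N : ℤ)) = prog Y' N r s := by
        unfold prog
        apply filter_congr
        intro P _
        have e1 : ∀ x t : ℤ, (x ≡ t % (N : ℤ) [ZMOD N]) ↔ (x ≡ t [ZMOD N]) := by
          intro x t
          constructor
          · intro h
            exact h.trans (Int.mod_modEq _ _)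
          · intro h
            exact h.trans (Int.mod_modEq _ _).symm
        rw [e1, e1]
      rw [h6]
      have h7 : prog Y' N r s ⊆ prog Y N r s := by
        unfold prog
        exact filter_subset_filter _ (box_mono h4)
      have h8 : ∑ P ∈ prog Y N r s, lam (g P * ev L P) =
          ∑ P ∈ prog Y' N r s, lam (g P * ev L P) + ∑ P ∈ prog Y N r s \ prog Y' N r s, lam (g P * ev L P) := by
        rw [add_comm, sum_sdiff h7]
      have h9 : |((∑ P ∈ prog Y N r s \ prog Y' N r s, lam (g P * ev L P) : ℤ) : ℝ)| ≤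
          4 * Z * (2 * X + 1) := by
        push_cast
        refine (abs_sum_le_sum_abs _ _).trans ?_
        refine (sum_le_sum (fun P _ => lam_abs _)).trans ?_
        rw [sum_const, nsmul_eq_mul, mul_one]
        have h10 : prog Y N r s \ prog Y' N r s ⊆ box Y \ box Y' := by
          intro P hP
          unfold prog at hP
          rw [mem_sdiff, mem_filter, mem_filter] at hP
          rw [mem_sdiff]
          exact ⟨hP.1.1, fun h => hP.2 ⟨h, hP.1.2⟩⟩
        have h11 := card_le_card h10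
        rw [card_sdiff_of_subset (box_mono h4), card_box, card_box] at h11
        have h12 : (2 * Y + 1) ^ 2 - (2 * Y' + 1) ^ 2 ≤ 4 * Z * (2 * X + 1) := by
          rw [Nat.sub_le_iff_le_add]
          obtain ⟨t, ht⟩ : ∃ t, Y = Y' + t := ⟨Y - Y', by omega⟩
          have ht1 : t ≤ Z := by omega
          have ht2 : Y' + t ≤ X := by omega
          rw [ht]
          nlinarith [Nat.zero_le Y', Nat.zero_le t, Nat.mul_le_mul ht1 ht2, Nat.mul_le_mul ht1 (show Y' ≤ X by omega)]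
        exact_mod_cast h11.trans h12
      have h10 : 4 * (Z : ℝ) * (2 * X + 1) ≤ 1 / 4 * ((X : ℝ) ^ 2 / Real.log X ^ B) := by
        have h11 : (Z : ℝ) ≤ X / (64 * Real.log X ^ B) := by
          rw [le_div_iff₀ (by positivity)]
          exact hZr
        calc 4 * (Z : ℝ) * (2 * X + 1) ≤ 4 * (X / (64 * Real.log X ^ B)) * (3 * X) := by
              apply mul_le_mul (by linarith) (by linarith) (by positivity) (by positivity)
          _ = 12 / 64 * ((X : ℝ) ^ 2 / Real.log X ^ B) := by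
              field_simp
              ring
          _ ≤ _ := by
              apply mul_le_mul_of_nonneg_right _ (by positivity)
              norm_num
      rw [h8] at hlt
      push_cast at hlt h9 ⊢
      have h11 := abs_add_le (∑ P ∈ prog Y' N r s, ((lam (g P * ev L P) : ℤ) : ℝ))
        (∑ P ∈ prog Y N r s \ prog Y' N r s, ((lam (g P * ev L P) : ℤ) : ℝ))
      have h12 : ε * (2 * (X : ℝ) + 1) ^ 2 ≤ 3 / 4 * ((X : ℝ) ^ 2 / Real.log X ^ B) := by
        rw [hε]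
        calc 1 / (12 * Real.log X ^ B) * (2 * (X : ℝ) + 1) ^ 2 ≤ 1 / (12 * Real.log X ^ B) * (3 * X) ^ 2 := by
              apply mul_le_mul_of_nonneg_left _ (by positivity)
              apply pow_le_pow_left₀ (by positivity)
              linarith
          _ = _ := by field_simp; ring
      linarith
  refine (Nat.cast_le.2 (card_le_card hsub)).trans ?_
  refine (Nat.cast_le.2 card_biUnion_le).trans ?_
  rw [Nat.cast_sum]
  refine (sum_le_sum hbad).trans ?_
  rw [sum_const, hE, card_product, card_product, card_product, Nat.card_Icc, card_range, card_range, nsmul_eq_mul,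
    Nat.add_sub_cancel]
  push_cast
  have hκ0 : 0 < Real.log X ^ κ := by positivity
  calc (K : ℝ) * (K * (K * (2 * J + 1))) * (288 * Real.log X ^ (2 * B))
      ≤ Real.log X ^ κ * (Real.log X ^ κ * (Real.log X ^ κ * (131 * Real.log X ^ B))) * (288 * Real.log X ^ (2 * B)) := by
        apply mul_le_mul_of_nonneg_right _ (by positivity)
        apply mul_le_mul hKr _ (by positivity) (by positivity)
        apply mul_le_mul hKr _ (by positivity) (by positivity)
        apply mul_le_mul hKr _ (by positivity) (by positivity)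
        linarith
    _ = 37728 * Real.log X ^ (3 * κ + 3 * B) := by ring
    _ ≤ Real.log X * Real.log X ^ (3 * κ + 3 * B) := by
        apply mul_le_mul_of_nonneg_right _ (by positivity)
        linarith
    _ = _ := by ring

end Pool.Agent.E8helper80.BF
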