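import Pool.Agent.E8helper80.BF.AP

set_option autoImplicit false

/-! Two non-proportional linear forms: power of the logarithm saving, uniformly in the coefficients. -/

namespace Pool.Agent.E8helper80.BF
open Finset
open Pool.Agent.E8helper80.MQ (lamZ lamZ_neg lamZ_norm lamZ_nat lamZ_mul)

/-- the square -/
noncomputable def box (X : ℕ) : Finset (ℤ × ℤ) := Icc (-(X : ℤ)) X ×ˢ Icc (-(X : ℤ)) X

/-- the value of the linear form `L` at `P` -/
def ev (L P : ℤ × ℤ) : ℤ := L.1 * P.1 + L.2 * P.2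

lemma mem_box {X : ℕ} {P : ℤ × ℤ} : P ∈ box X ↔ |P.1| ≤ X ∧ |P.2| ≤ X := by
  unfold box
  rw [mem_product, mem_Icc, mem_Icc, abs_le, abs_le]

lemma card_box (X : ℕ) : (box X).card = (2 * X + 1) ^ 2 := by
  unfold box
  rw [card_product, Int.card_Icc]
  have : ((X : ℤ) + 1 - -(X : ℤ)).toNat = 2 * X + 1 := by omega
  rw [this, pow_two]

lemma ev_le {X H : ℕ} {L P : ℤ × ℤ} (hL1 : |L.1| ≤ H) (hL2 : |L.2| ≤ H) (hP : P ∈ box X) :
    |ev L P| ≤ ((2 * H * X : ℕ) : ℤ) := by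
  rw [mem_box] at hP
  unfold ev
  refine (abs_add_le _ _).trans ?_
  rw [abs_mul, abs_mul]
  push_cast
  have h1 : |L.1| * |P.1| ≤ H * X := mul_le_mul hL1 hP.1 (abs_nonneg _) (by positivity)
  have h2 : |L.2| * |P.2| ≤ H * X := mul_le_mul hL2 hP.2 (abs_nonneg _) (by positivity)
  linarith

/-- convexity -/
lemma conv (s b k₁ k₂ k X : ℤ) (h1 : |s + b * k₁| ≤ X) (h2 : |s + b * k₂| ≤ X) (hk1 : k₁ ≤ k) (hk2 : k ≤ k₂) :
    |s + b * k| ≤ X := by
  rw [abs_le] at h1 h2 ⊢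
  rcases le_total 0 b with hb | hb
  · have h3 : b * k₁ ≤ b * k := mul_le_mul_of_nonneg_left hk1 hb
    have h4 : b * k ≤ b * k₂ := mul_le_mul_of_nonneg_left hk2 hb
    constructor <;> linarith
  · have h3 : b * k ≤ b * k₁ := mul_le_mul_of_nonpos_left hk1 hb
    have h4 : b * k₂ ≤ b * k := mul_le_mul_of_nonpos_left hk2 hb
    constructor <;> linarith

/-- one line -/
lemma oneLine (U : ℕ) : ∃ M₀ : ℕ, ∀ X H : ℕ, M₀ ≤ 2 * H * X → ∀ L L' : ℤ × ℤ, |L'.1| ≤ H → |L'.2| ≤ H →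
    ∀ p q : ℤ, L.1 * p + L.2 * q = 1 → L.1 * L'.2 - L'.1 * L.2 ≠ 0 → ∀ m : ℤ,
    ‖∑ P ∈ (box X).filter (fun P => ev L P = m), lamZ (ev L' P)‖ ≤
      4 * (((2 * H * X : ℕ) : ℝ) / Real.log ((2 * H * X : ℕ) : ℝ) ^ U) := by
  obtain ⟨M₀, h⟩ := line U
  refine ⟨M₀, fun X H hM L L' hL1 hL2 p q hpq hD m => ?_⟩
  obtain ⟨a, b⟩ := L
  obtain ⟨a', b'⟩ := L'
  simp only at hL1 hL2 hpq hD
  have hnn : 0 ≤ (((2 * H * X : ℕ) : ℝ) / Real.log ((2 * H * X : ℕ) : ℝ) ^ U) := by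
    have h1 := h (2 * H * X) hM 1 one_ne_zero 0 0 0 le_rfl (by simp; positivity) (by simp; positivity)
    have h2 := (norm_nonneg _).trans h1
    linarith
  obtain ⟨S, hS⟩ : ∃ S, S = (box X).filter (fun P => ev (a, b) P = m) := ⟨_, rfl⟩
  rw [← hS]
  rcases S.eq_empty_or_nonempty with h0 | h0
  · rw [h0, sum_empty, norm_zero]
    positivity
  obtain ⟨κ, hκ⟩ : ∃ κ : ℤ × ℤ → ℤ, κ = fun P => q * P.1 - p * P.2 := ⟨_, rfl⟩
  have hK : (S.image κ).Nonempty := h0.image κ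
  obtain ⟨k₁, hk₁⟩ : ∃ k₁, k₁ = (S.image κ).min' hK := ⟨_, rfl⟩
  obtain ⟨k₂, hk₂⟩ : ∃ k₂, k₂ = (S.image κ).max' hK := ⟨_, rfl⟩
  have hinv : ∀ P ∈ S, P = (p * m + b * κ P, q * m - a * κ P) := by
    intro P hP
    rw [hS, mem_filter] at hP
    have h1 := hP.2
    unfold ev at h1
    simp only at h1
    rw [hκ]
    ext
    · simp only
      rw [← h1]
      linear_combination (-P.1) * hpq
    · simp only
      rw [← h1]
      linear_combination (-P.2) * hpq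
  have hval : ∀ P ∈ S, ev (a', b') P = (a' * p + b' * q) * m - (a * b' - a' * b) * κ P := by
    intro P hP
    rw [hS, mem_filter] at hP
    have h1 := hP.2
    unfold ev at h1 ⊢
    simp only at h1 ⊢
    rw [hκ]
    simp only
    rw [← h1]
    linear_combination (-(a' * P.1 + b' * P.2)) * hpq
  have hmem : ∀ k ∈ S.image κ, |p * m + b * k| ≤ X ∧ |q * m + (-a) * k| ≤ X ∧
      |(a' * p + b' * q) * m - (a * b' - a' * b) * k| ≤ ((2 * H * X : ℕ) : ℤ) := by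
    intro k hk
    rw [mem_image] at hk
    obtain ⟨P, hP, rfl⟩ := hk
    have h1 := hinv P hP
    have h2 := hval P hP
    have h3 : P ∈ box X := by
      rw [hS, mem_filter] at hP
      exact hP.1
    rw [← h2]
    refine ⟨?_, ?_, ev_le hL1 hL2 h3⟩
    · rw [mem_box] at h3
      have h4 := congrArg Prod.fst h1
      simp only at h4
      rw [← h4]
      exact h3.1
    · rw [mem_box] at h3
      have h4 := congrArg Prod.snd h1
      simp only at h4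
      rw [neg_mul, ← sub_eq_add_neg, ← h4]
      exact h3.2
  have m1 := hmem k₁ (by rw [hk₁]; exact min'_mem _ _)
  have m2 := hmem k₂ (by rw [hk₂]; exact max'_mem _ _)
  have h12 : k₁ ≤ k₂ := by
    rw [hk₁, hk₂]
    exact min'_le_max' _ hK
  have key := h (2 * H * X) hM (a * b' - a' * b) hD ((a' * p + b' * q) * m) k₁ k₂ h12 m1.2.2 m2.2.2
  refine le_trans (le_of_eq ?_) key
  congr 1
  apply sum_nbij' κ (fun k => (p * m + b * k, q * m - a * k))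
  · intro P hP
    rw [mem_Icc, hk₁, hk₂]
    exact ⟨min'_le _ _ (mem_image_of_mem κ hP), le_max' _ _ (mem_image_of_mem κ hP)⟩
  · intro k hk
    rw [mem_Icc] at hk
    rw [hS, mem_filter, mem_box]
    refine ⟨⟨conv _ _ _ _ _ _ m1.1 m2.1 hk.1 hk.2, ?_⟩, ?_⟩
    · have := conv _ _ _ _ _ _ m1.2.1 m2.2.1 hk.1 hk.2
      rw [neg_mul, ← sub_eq_add_neg] at this
      exact this
    · unfold ev
      simp only
      linear_combination m * hpq
  · intro P hP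
    exact (hinv P hP).symm
  · intro k _
    rw [hκ]
    simp only
    linear_combination k * hpq
  · intro P hP
    rw [hval P hP]

/-- two forms, the first one primitive -/
lemma gramPrim (U : ℕ) : ∃ M₀ : ℕ, ∀ X H : ℕ, M₀ ≤ 2 * H * X → ∀ L L' : ℤ × ℤ, |L.1| ≤ H → |L.2| ≤ H →
    |L'.1| ≤ H → |L'.2| ≤ H → IsCoprime L.1 L.2 → L.1 * L'.2 - L'.1 * L.2 ≠ 0 →
    ‖∑ P ∈ box X, lamZ (ev L P) * lamZ (ev L' P)‖ ≤
      (2 * ((2 * H * X : ℕ) : ℝ) + 1) * (4 * (((2 * H * X : ℕ) : ℝ) / Real.log ((2 * H * X : ℕ) : ℝ) ^ U)) := by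
  obtain ⟨M₀, h⟩ := oneLine U
  refine ⟨M₀, fun X H hM L L' hL1 hL2 hL1' hL2' hco hD => ?_⟩
  obtain ⟨p, q, hpq⟩ := hco
  have hpq' : L.1 * p + L.2 * q = 1 := by rw [← hpq]; ring
  have h1 : ∑ P ∈ box X, lamZ (ev L P) * lamZ (ev L' P) =
      ∑ m ∈ Icc (-((2 * H * X : ℕ) : ℤ)) ((2 * H * X : ℕ) : ℤ),
        ∑ P ∈ (box X).filter (fun P => ev L P = m), lamZ (ev L P) * lamZ (ev L' P) := by
    symm
    apply sum_fiberwise_of_maps_to
    intro P hP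
    have := ev_le hL1 hL2 hP
    rw [abs_le] at this
    rw [mem_Icc]
    exact this
  rw [h1]
  refine (norm_sum_le _ _).trans ?_
  have h2 : ∀ m ∈ Icc (-((2 * H * X : ℕ) : ℤ)) ((2 * H * X : ℕ) : ℤ),
      ‖∑ P ∈ (box X).filter (fun P => ev L P = m), lamZ (ev L P) * lamZ (ev L' P)‖ ≤
        4 * (((2 * H * X : ℕ) : ℝ) / Real.log ((2 * H * X : ℕ) : ℝ) ^ U) := by
    intro m _
    have h3 : ∑ P ∈ (box X).filter (fun P => ev L P = m), lamZ (ev L P) * lamZ (ev L' P) =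
        lamZ m * ∑ P ∈ (box X).filter (fun P => ev L P = m), lamZ (ev L' P) := by
      rw [mul_sum]
      apply sum_congr rfl
      intro P hP
      rw [(mem_filter.1 hP).2]
    rw [h3, norm_mul]
    have h4 := h X H hM L L' hL1' hL2' p q hpq' hD m
    calc _ ≤ 1 * (4 * (((2 * H * X : ℕ) : ℝ) / Real.log ((2 * H * X : ℕ) : ℝ) ^ U)) :=
          mul_le_mul (lamZ_norm _) h4 (norm_nonneg _) (by norm_num)
      _ = _ := one_mul _
  refine (sum_le_sum h2).trans (le_of_eq ?_)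
  rw [sum_const, Int.card_Icc, nsmul_eq_mul]
  congr 1
  have : (((2 * H * X : ℕ) : ℤ) + 1 - -((2 * H * X : ℕ) : ℤ)).toNat = 2 * (2 * H * X) + 1 := by omega
  rw [this]
  push_cast
  ring

/-- two forms -/
lemma gramAny (U : ℕ) : ∃ M₀ : ℕ, ∀ X H : ℕ, M₀ ≤ 2 * H * X → ∀ L L' : ℤ × ℤ, |L.1| ≤ H → |L.2| ≤ H →
    |L'.1| ≤ H → |L'.2| ≤ H → L.1 * L'.2 - L'.1 * L.2 ≠ 0 →
    ‖∑ P ∈ box X, lamZ (ev L P) * lamZ (ev L' P)‖ ≤
      (2 * ((2 * H * X : ℕ) : ℝ) + 1) * (4 * (((2 * H * X : ℕ) : ℝ) / Real.log ((2 * H * X : ℕ) : ℝ) ^ U)) := by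
  obtain ⟨M₀, h⟩ := gramPrim U
  refine ⟨M₀, fun X H hM L L' hL1 hL2 hL1' hL2' hD => ?_⟩
  obtain ⟨a, b⟩ := L
  simp only at hL1 hL2 hD
  have hg : Int.gcd a b ≠ 0 := by
    intro h0
    rw [Int.gcd_eq_zero_iff] at h0
    apply hD
    rw [h0.1, h0.2]
    ring
  obtain ⟨g, hgd⟩ : ∃ g : ℤ, g = (Int.gcd a b : ℤ) := ⟨_, rfl⟩
  have hg0 : g ≠ 0 := by rw [hgd]; exact_mod_cast hg
  have hg1 : 1 ≤ g := by rw [hgd]; omega
  obtain ⟨a₀, ha⟩ : g ∣ a := by rw [hgd]; exact Int.gcd_dvd_left ..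
  obtain ⟨b₀, hb⟩ : g ∣ b := by rw [hgd]; exact Int.gcd_dvd_right ..
  have hco : IsCoprime a₀ b₀ := by
    rw [Int.isCoprime_iff_gcd_eq_one]
    have h1 : Int.gcd (g * a₀) (g * b₀) = g.natAbs * Int.gcd a₀ b₀ := Int.gcd_mul_left ..
    rw [← ha, ← hb] at h1
    have h2 : g.natAbs = Int.gcd a b := by rw [hgd]; exact Int.natAbs_natCast _
    rw [h2] at h1
    have h3 : Int.gcd a b * 1 = Int.gcd a b * Int.gcd a₀ b₀ := by rw [mul_one]; exact h1
    exact (Nat.eq_of_mul_eq_mul_left (by omega) h3).symm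
  have hle : ∀ x y : ℤ, x = g * y → |x| ≤ (H : ℤ) → |y| ≤ (H : ℤ) := by
    intro x y hxy hx
    rw [hxy, abs_mul] at hx
    have h3 : 1 ≤ |g| := by rw [abs_of_pos (by omega)]; exact hg1
    nlinarith [abs_nonneg y]
  have h4 := h X H hM (a₀, b₀) L' (hle a a₀ ha hL1) (hle b b₀ hb hL2) hL1' hL2' hco (by
    intro h5
    apply hD
    simp only at h5
    rw [ha, hb]
    calc g * a₀ * L'.2 - L'.1 * (g * b₀) = g * (a₀ * L'.2 - L'.1 * b₀) := by ring
      _ = 0 := by rw [h5, mul_zero])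
  have h5 : ∑ P ∈ box X, lamZ (ev (a, b) P) * lamZ (ev L' P) =
      lamZ g * ∑ P ∈ box X, lamZ (ev (a₀, b₀) P) * lamZ (ev L' P) := by
    rw [mul_sum]
    apply sum_congr rfl
    intro P _
    have h6 : ev (a, b) P = g * ev (a₀, b₀) P := by
      unfold ev
      simp only
      rw [ha, hb]
      ring
    rw [h6, lamZ_mul]
    ring
  rw [h5, norm_mul]
  calc _ ≤ 1 * ((2 * ((2 * H * X : ℕ) : ℝ) + 1) * (4 * (((2 * H * X : ℕ) : ℝ) / Real.log ((2 * H * X : ℕ) : ℝ) ^ U))) :=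
        mul_le_mul (lamZ_norm _) h4 (norm_nonneg _) (by norm_num)
    _ = _ := one_mul _

/-- **two linear forms** with coefficients at most a power of the logarithm -/
theorem gram (A B : ℕ) : ∃ X₀ : ℕ, ∀ X : ℕ, X₀ ≤ X → ∀ L L' : ℤ × ℤ,
    (|L.1| : ℝ) ≤ Real.log X ^ A → (|L.2| : ℝ) ≤ Real.log X ^ A → (|L'.1| : ℝ) ≤ Real.log X ^ A →
    (|L'.2| : ℝ) ≤ Real.log X ^ A → L.1 * L'.2 - L'.1 * L.2 ≠ 0 →
    ‖∑ P ∈ box X, lamZ (ev L P) * lamZ (ev L' P)‖ ≤ (X : ℝ) ^ 2 / Real.log X ^ B := by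
  obtain ⟨M₀, h⟩ := gramAny (2 * A + B + 1)
  obtain ⟨m₁, h1⟩ : ∃ m₁ : ℕ, ∀ M : ℕ, m₁ ≤ M → (48 : ℝ) ≤ Real.log M :=
    Filter.eventually_atTop.1 ((Real.tendsto_log_atTop.comp tendsto_natCast_atTop_atTop).eventually_ge_atTop _)
  refine ⟨M₀ + m₁ + 3, fun X hX L L' hL1 hL2 hL1' hL2' hD => ?_⟩
  have hlog := h1 X (by omega)
  have hlog0 : 0 < Real.log X := by linarith
  have hlog1 : 1 ≤ Real.log X := by linarith
  have hX0 : (0 : ℝ) < X := by exact_mod_cast (by omega : 0 < X)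
  obtain ⟨H, hH⟩ : ∃ H : ℕ, H = ⌊Real.log X ^ A⌋₊ := ⟨_, rfl⟩
  have hpA : 1 ≤ Real.log X ^ A := one_le_pow₀ hlog1
  have hH1 : 1 ≤ H := by
    rw [hH]
    exact Nat.le_floor (by exact_mod_cast hpA)
  have hHr : (H : ℝ) ≤ Real.log X ^ A := by
    rw [hH]
    exact Nat.floor_le (by positivity)
  have hc : ∀ x : ℤ, (|x| : ℝ) ≤ Real.log X ^ A → |x| ≤ (H : ℤ) := by
    intro x hx
    have h2 : ((x.natAbs : ℕ) : ℝ) ≤ Real.log X ^ A := by
      rw [Nat.cast_natAbs]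
      push_cast
      exact hx
    have h3 := Nat.le_floor h2
    rw [← hH] at h3
    rw [Int.abs_eq_natAbs]
    exact_mod_cast h3
  have hMX : X ≤ 2 * H * X := Nat.le_mul_of_pos_left X (by omega)
  have h2 := h X H (by omega) L L' (hc _ hL1) (hc _ hL2) (hc _ hL1') (hc _ hL2') hD
  refine h2.trans ?_
  obtain ⟨M, hM⟩ : ∃ M : ℕ, M = 2 * H * X := ⟨_, rfl⟩
  rw [← hM] at hMX ⊢
  have hMX' : (X : ℝ) ≤ M := by exact_mod_cast hMX
  have hM1 : (1 : ℝ) ≤ M := by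
    have : (1 : ℝ) ≤ X := by exact_mod_cast (by omega : 1 ≤ X)
    linarith
  have hlogM : Real.log X ≤ Real.log M := Real.log_le_log hX0 hMX'
  have hMr : (M : ℝ) ≤ 2 * Real.log X ^ A * X := by
    rw [hM]
    push_cast
    apply mul_le_mul_of_nonneg_right _ hX0.le
    linarith
  have h3 : (M : ℝ) / Real.log M ^ (2 * A + B + 1) ≤ M / Real.log X ^ (2 * A + B + 1) := by
    apply div_le_div_of_nonneg_left (by positivity) (by positivity)
    exact pow_le_pow_left₀ hlog0.le hlogM _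
  calc (2 * (M : ℝ) + 1) * (4 * ((M : ℝ) / Real.log M ^ (2 * A + B + 1)))
      ≤ (3 * M) * (4 * (M / Real.log X ^ (2 * A + B + 1))) := by
        apply mul_le_mul (by linarith) (by linarith) (by positivity) (by positivity)
    _ = 12 * M ^ 2 / Real.log X ^ (2 * A + B + 1) := by ring
    _ ≤ 12 * (2 * Real.log X ^ A * X) ^ 2 / Real.log X ^ (2 * A + B + 1) := by
        apply div_le_div_of_nonneg_right _ (by positivity)
        apply mul_le_mul_of_nonneg_left _ (by norm_num)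
        exact pow_le_pow_left₀ (by positivity) hMr 2
    _ = 48 * X ^ 2 * Real.log X ^ (2 * A) / Real.log X ^ (2 * A + B + 1) := by ring
    _ ≤ (X : ℝ) ^ 2 / Real.log X ^ B := by
        rw [div_le_div_iff₀ (by positivity) (by positivity)]
        have h4 : Real.log X ^ (2 * A + B + 1) = Real.log X ^ (2 * A) * Real.log X ^ B * Real.log X := by ring
        rw [h4]
        have h5 : 0 ≤ (X : ℝ) ^ 2 * Real.log X ^ (2 * A) * Real.log X ^ B := by positivity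
        nlinarith

end Pool.Agent.E8helper80.BF
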